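import Pool.Agent.H31.DPD.Targets

/-!
Module PI of the project DPD on `MP_c59857_nt`: the minor arcs for polynomials, by induction on
the degree.
-/

set_option autoImplicit false

open Finset

namespace Pool.Agent.H21.DPD

open Pool.Agent.H31.DP Pool.Agent.H31.DPD

theorem pi_fm_le {r : ℕ} (β : Fin r → ℤ) (δ : Fin r → ℕ) (n : ℕ) :
    ‖((fm β δ n : ℝ) : ℂ)‖ ≤ 1 := by
  rw [Complex.norm_real, Real.norm_eq_abs]
  unfold fm
  rw [Finset.abs_prod]
  apply Finset.prod_le_one
  · intro i _
    exact abs_nonneg _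
  · intro i _
    rw [abs_pow]
    apply pow_le_one₀ (abs_nonneg _)
    rw [← Int.cast_abs]
    exact_mod_cast ArithmeticFunction.abs_moebius_le_one

theorem pi_norm_ee (x : ℝ) : ‖ee x‖ = 1 := by
  unfold ee
  have : 2 * (Real.pi : ℂ) * Complex.I * x = ((2 * Real.pi * x : ℝ) : ℂ) * Complex.I := by
    push_cast
    ring
  rw [this, Complex.norm_exp_ofReal_mul_I]

theorem pi_SmP_le {r : ℕ} (β : Fin r → ℤ) (δ : Fin r → ℕ) (N : ℕ) (P : Polynomial ℝ) :
    ‖SmP β δ N P‖ ≤ N := by
  unfold SmP
  refine (norm_sum_le _ _).trans ?_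
  calc ∑ n ∈ Finset.Icc 1 N, ‖((fm β δ n : ℝ) : ℂ) * ee (P.eval (n : ℝ))‖
      ≤ ∑ n ∈ Finset.Icc 1 N, (1 : ℝ) := by
        apply Finset.sum_le_sum
        intro n _
        rw [norm_mul, pi_norm_ee, mul_one]
        exact pi_fm_le β δ n
    _ = N := by simp

theorem pi_split (s : Finset ℕ) (w : ℕ → ℝ) (hw : ∀ n, 0 ≤ w n) (P A B C : ℕ → Prop)
    [DecidablePred P] [DecidablePred A] [DecidablePred B] [DecidablePred C]
    (h : ∀ n ∈ s, P n → A n ∨ B n ∨ C n) :
    ∑ n ∈ s.filter P, w n ≤ ∑ n ∈ s.filter A, w n + ∑ n ∈ s.filter B, w n +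
      ∑ n ∈ s.filter C, w n := by
  rw [Finset.sum_filter, Finset.sum_filter, Finset.sum_filter, Finset.sum_filter,
    ← Finset.sum_add_distrib, ← Finset.sum_add_distrib]
  apply Finset.sum_le_sum
  intro n hn
  have h1 := hw n
  have hA : 0 ≤ (if A n then w n else 0) := by split_ifs <;> simp [h1]
  have hB : 0 ≤ (if B n then w n else 0) := by split_ifs <;> simp [h1]
  have hC : 0 ≤ (if C n then w n else 0) := by split_ifs <;> simp [h1]
  by_cases hP : P n
  · rw [if_pos hP]
    rcases h n hn hP with h2 | h2 | h2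
    · rw [if_pos h2]
      linarith
    · rw [if_pos h2]
      linarith
    · rw [if_pos h2]
      linarith
  · rw [if_neg hP]
    linarith

/-- the polynomial without its leading term -/
theorem pi_degree (d : ℕ) (hd : 0 < d) (P : Polynomial ℝ) (hP : P.natDegree ≤ d + 1) (c : ℝ) :
    (P.erase (d + 1) + Polynomial.C c * Polynomial.X).natDegree ≤ d := by
  refine (Polynomial.natDegree_add_le _ _).trans (max_le ?_ ?_)
  · rw [Polynomial.natDegree_le_iff_coeff_eq_zero]
    intro N hN
    rw [Polynomial.coeff_erase]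
    split_ifs with h
    · rfl
    · exact Polynomial.coeff_eq_zero_of_natDegree_lt (by omega)
  · refine (Polynomial.natDegree_C_mul_le c Polynomial.X).trans ?_
    rw [Polynomial.natDegree_X]
    exact hd

theorem pi_coeff (d j : ℕ) (P : Polynomial ℝ) (hj : j ≤ d) (c : ℝ) :
    (P.erase (d + 1) + Polynomial.C c * Polynomial.X).coeff j =
      P.coeff j + if j = 1 then c else 0 := by
  rw [Polynomial.coeff_add, Polynomial.coeff_erase, if_neg (by omega), Polynomial.coeff_C_mul,
    Polynomial.coeff_X]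
  split_ifs with h1 h2 h2
  · rw [mul_one]
  · exact absurd h1.symm h2
  · exact absurd h2.symm h1
  · rw [mul_zero]

/-- the new polynomial is in the minor arcs -/
theorem pi_minor (d K K1 K2 R N N1 q k : ℕ) (ε1 : ℝ) (a : ℤ) (P : Polynomial ℝ)
    (hR : 1 ≤ ε1 * R) (hK : K1 * K2 * R ^ d ≤ K) (hR0 : 0 < R)
    (hN1 : ε1 * N < N1) (hq : 1 ≤ q) (hq1 : q ≤ K1)
    (ha : (N : ℝ) ^ (d + 1) * |(q : ℝ) * P.coeff (d + 1) - a| < K1)
    (hP : NonMaj K N (d + 1) P) :
    NonMaj K2 N1 d (P.erase (d + 1) + Polynomial.C ((k : ℝ) / q) * Polynomial.X) := by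
  intro q1 h1 h2
  by_contra hcon
  push Not at hcon
  have hqR : (1 : ℝ) ≤ q := by exact_mod_cast hq
  have hq0 : (0 : ℝ) < q := by linarith
  have hq1R : (1 : ℝ) ≤ q1 := by exact_mod_cast h1
  have hqK : (q : ℝ) ≤ K1 := by exact_mod_cast hq1
  have hq1K : (q1 : ℝ) ≤ K2 := by exact_mod_cast h2
  have hRd : 1 ≤ R ^ d := Nat.one_le_pow _ _ hR0
  have hKK : K1 * K2 ≤ K := le_trans (Nat.le_mul_of_pos_right _ hRd) hK
  obtain ⟨j, hj1, hj2, hj3⟩ := hP (q * q1) (Nat.mul_pos hq h1)
    ((Nat.mul_le_mul hq1 h2).trans hKK)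
  have hKR : ((K1 : ℝ) * K2) * (R : ℝ) ^ d ≤ K := by exact_mod_cast hK
  have hKKR : (K1 : ℝ) * K2 ≤ K := by exact_mod_cast hKK
  have hK1 : (0 : ℝ) < K1 := by linarith
  have hK2 : (0 : ℝ) < K2 := by linarith
  rcases Nat.lt_or_ge d j with hlt | hle
  · have hj : j = d + 1 := by omega
    subst hj
    have h3 := hj3 (q1 * a)
    push_cast at h3
    have e : (q : ℝ) * q1 * P.coeff (d + 1) - q1 * a = q1 * (q * P.coeff (d + 1) - a) := by ring
    rw [e, abs_mul, abs_of_pos (by linarith : (0 : ℝ) < q1)] at h3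
    have h4 : (N : ℝ) ^ (d + 1) * ((q1 : ℝ) * |(q : ℝ) * P.coeff (d + 1) - a|) < K1 * K2 := by
      calc (N : ℝ) ^ (d + 1) * ((q1 : ℝ) * |(q : ℝ) * P.coeff (d + 1) - a|)
          = q1 * ((N : ℝ) ^ (d + 1) * |(q : ℝ) * P.coeff (d + 1) - a|) := by ring
        _ < q1 * K1 := by
            apply mul_lt_mul_of_pos_left ha (by linarith)
        _ ≤ K1 * K2 := by nlinarith
    linarith
  · obtain ⟨b, hb⟩ := hcon j hj1 hle
    rw [pi_coeff d j P hle] at hb
    have h3 := hj3 (q * b - if j = 1 then (q1 : ℤ) * k else 0)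
    have e : ((q * q1 : ℕ) : ℝ) * P.coeff j - ((q * b - if j = 1 then (q1 : ℤ) * k else 0 : ℤ) : ℝ)
        = q * ((q1 : ℝ) * (P.coeff j + if j = 1 then (k : ℝ) / q else 0) - b) := by
      push_cast
      split_ifs with h5
      · field_simp
        ring
      · ring
    rw [e, abs_mul, abs_of_pos hq0] at h3
    set T := |(q1 : ℝ) * (P.coeff j + if j = 1 then (k : ℝ) / q else 0) - b| with hT
    have hT0 : 0 ≤ T := abs_nonneg _
    have hNN : (N : ℝ) ≤ R * N1 := by
      have hR0' : (0 : ℝ) < R := by exact_mod_cast hR0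
      have : (N : ℝ) ≤ R * (ε1 * N) := by
        have hN0 : (0 : ℝ) ≤ N := by positivity
        nlinarith
      nlinarith
    have h6 : (N : ℝ) ^ j ≤ (R : ℝ) ^ d * (N1 : ℝ) ^ j := by
      calc (N : ℝ) ^ j ≤ (R * N1 : ℝ) ^ j := pow_le_pow_left₀ (by positivity) hNN j
        _ = (R : ℝ) ^ j * (N1 : ℝ) ^ j := by rw [mul_pow]
        _ ≤ (R : ℝ) ^ d * (N1 : ℝ) ^ j := by
            apply mul_le_mul_of_nonneg_right _ (by positivity)
            exact pow_le_pow_right₀ (by exact_mod_cast hR0) hle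
    have h7 : (N : ℝ) ^ j * (q * T) < K := by
      calc (N : ℝ) ^ j * (q * T) ≤ (R : ℝ) ^ d * (N1 : ℝ) ^ j * (q * T) :=
            mul_le_mul_of_nonneg_right h6 (by positivity)
        _ = (R : ℝ) ^ d * q * ((N1 : ℝ) ^ j * T) := by ring
        _ < (R : ℝ) ^ d * q * K2 := by
            apply mul_lt_mul_of_pos_left hb
            have : (0 : ℝ) < R := by exact_mod_cast hR0
            positivity
        _ ≤ (K1 : ℝ) * K2 * (R : ℝ) ^ d := by
            have h8 : (0 : ℝ) ≤ (R : ℝ) ^ d * K2 := by positivity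
            nlinarith
        _ ≤ K := hKR
    linarith

theorem pi_log (J x y : ℕ) (hJ : 0 < J) (hx : 0 < x) (hy : 2 * J * x ≤ y) :
    Real.log ((y : ℝ) / (max 1 (x / J) : ℕ)) ≤ 2 * Real.log ((y : ℝ) / x) := by
  have hxR : (0 : ℝ) < x := by exact_mod_cast hx
  have hyR : (2 * J * x : ℝ) ≤ y := by exact_mod_cast hy
  have hJR : (1 : ℝ) ≤ J := by exact_mod_cast hJ
  have hy0 : (0 : ℝ) < y := by nlinarith
  have h1 : (x : ℝ) ≤ 2 * J * (max 1 (x / J) : ℕ) := by
    have : x ≤ 2 * J * (max 1 (x / J)) := by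
      have h2 : x < J * (x / J + 1) := by
        have := Nat.lt_mul_div_succ x hJ
        simpa [mul_comm] using this
      have h3 : x / J + 1 ≤ 2 * max 1 (x / J) := by omega
      calc x ≤ J * (x / J + 1) := h2.le
        _ ≤ J * (2 * max 1 (x / J)) := Nat.mul_le_mul_left _ h3
        _ = 2 * J * (max 1 (x / J)) := by ring
    exact_mod_cast this
  have hm : (0 : ℝ) < (max 1 (x / J) : ℕ) := by
    have : 0 < max 1 (x / J) := by omega
    exact_mod_cast this
  have h2 : (y : ℝ) / (max 1 (x / J) : ℕ) ≤ ((y : ℝ) / x) * (y / x) := by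
    have h3 : (2 * J : ℝ) ≤ y / x := by rwa [le_div_iff₀ hxR]
    have h4 : (y : ℝ) / (max 1 (x / J) : ℕ) ≤ (y / x) * (2 * J) := by
      rw [div_le_iff₀ hm]
      calc (y : ℝ) = (y / x) * x := by field_simp
        _ ≤ (y / x) * (2 * J * (max 1 (x / J) : ℕ)) := by
            apply mul_le_mul_of_nonneg_left h1 (by positivity)
        _ = _ := by ring
    refine h4.trans ?_
    apply mul_le_mul_of_nonneg_left h3 (by positivity)
  calc Real.log ((y : ℝ) / (max 1 (x / J) : ℕ)) ≤ Real.log (((y : ℝ) / x) * (y / x)) := by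
        apply Real.log_le_log (by positivity) h2
    _ = 2 * Real.log ((y : ℝ) / x) := by
        rw [Real.log_mul (by positivity) (by positivity)]
        ring

theorem pi_small (N0 x y : ℕ) (ρ : ℝ) (hρ : 0 < ρ) (hx : 0 < x)
    (hy : Real.exp (N0 / ρ) * x ≤ y) :
    ∑ N ∈ (Finset.Icc x y).filter (fun N : ℕ => N < N0), (1 / (N : ℝ)) ≤
      ρ * Real.log ((y : ℝ) / x) := by
  have hxR : (0 : ℝ) < x := by exact_mod_cast hx
  have h1 : ∑ N ∈ (Finset.Icc x y).filter (fun N : ℕ => N < N0), (1 / (N : ℝ)) ≤ N0 := by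
    calc ∑ N ∈ (Finset.Icc x y).filter (fun N : ℕ => N < N0), (1 / (N : ℝ))
        ≤ ∑ N ∈ Finset.range N0, (1 : ℝ) := by
          refine (Finset.sum_le_sum (g := fun _ => (1 : ℝ)) ?_).trans ?_
          · intro N hN
            rw [Finset.mem_filter, Finset.mem_Icc] at hN
            have : (1 : ℝ) ≤ N := by
              have : 1 ≤ N := by omega
              exact_mod_cast this
            rw [div_le_one (by linarith)]
            exact this
          · apply Finset.sum_le_sum_of_subset_of_nonneg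
            · intro N hN
              rw [Finset.mem_filter] at hN
              rw [Finset.mem_range]
              exact hN.2
            · intro _ _ _
              norm_num
      _ = N0 := by simp
  refine h1.trans ?_
  have h2 : (N0 : ℝ) / ρ ≤ Real.log ((y : ℝ) / x) := by
    rw [Real.le_log_iff_exp_le]
    · rwa [le_div_iff₀ hxR]
    · have : 0 < Real.exp (N0 / ρ) * x := by positivity
      have hy0 : (0 : ℝ) < y := by linarith
      positivity
  rw [div_le_iff₀ hρ] at h2
  linarith

theorem pf_PI (hTM : P_TM) (hBL : P_BL) (hST : P_ST) : P_PI := by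
  classical
  intro d
  induction d with
  | zero =>
    intro r β δ ε ρ hd
    omega
  | succ d ih =>
    intro r β δ ε ρ _ hδ hε hρ
    rcases Nat.eq_zero_or_pos d with rfl | hd
    · obtain ⟨K, hK⟩ := hTM 1 r β δ ε ρ (by norm_num) hδ hε hρ
      refine ⟨K, fun x y hx hxy => ?_⟩
      refine le_trans ?_ (hK x y hx hxy)
      apply Finset.sum_le_sum_of_subset_of_nonneg
      · intro N hN
        rw [Finset.mem_filter] at hN ⊢
        refine ⟨hN.1, ?_⟩
        obtain ⟨P, h1, h2, h3⟩ := hN.2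
        refine ⟨P, h1, ?_, h3⟩
        intro q hq1 hq2 a
        obtain ⟨j, hj1, hj2, hj3⟩ := h2 q hq1 hq2
        have : j = 1 := by omega
        subst this
        exact hj3 a
      · intro _ _ _
        positivity
    · obtain ⟨K1, hK1⟩ := hTM (d + 1) r β δ ε (ρ / 4) (by omega) hδ hε (by positivity)
      obtain ⟨J, N0, ε1, hJ, hε1, hbl⟩ := hBL d K1 ε hε
      have hJR : (0 : ℝ) < J := by exact_mod_cast hJ
      obtain ⟨K2, hK2⟩ := ih r β δ ε1 (ρ / (16 * (J : ℝ) ^ 2)) hd hδ hε1 (by positivity)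
      obtain ⟨R, hR⟩ := exists_nat_ge (1 / ε1)
      have hR1 : 1 ≤ ε1 * R := by
        rw [div_le_iff₀ hε1] at hR
        linarith
      have hR0 : 0 < R := by
        rcases Nat.eq_zero_or_pos R with h | h
        · subst h
          norm_num at hR1
        · exact h
      obtain ⟨E, hE⟩ := exists_nat_ge (Real.exp (N0 / (ρ / 4)))
      set K := max (max K1 K2) (max (K1 * K2 * R ^ d) (max (2 * J) E)) with hKdef
      have hKK1 : K1 ≤ K := by simp [hKdef]
      have hKK2 : K2 ≤ K := by simp [hKdef]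
      have hKR : K1 * K2 * R ^ d ≤ K := by simp [hKdef]
      have hKJ : 2 * J ≤ K := by simp [hKdef]
      have hKE : E ≤ K := by simp [hKdef]
      refine ⟨K, fun x y hx hxy => ?_⟩
      have hy1 : K1 * x ≤ y := (Nat.mul_le_mul_right _ hKK1).trans hxy
      have hy2 : K2 * x ≤ y := (Nat.mul_le_mul_right _ hKK2).trans hxy
      have hyJ : 2 * J * x ≤ y := (Nat.mul_le_mul_right _ hKJ).trans hxy
      have hyE : Real.exp (N0 / (ρ / 4)) * x ≤ y := by
        have h1 : E * x ≤ y := (Nat.mul_le_mul_right _ hKE).trans hxy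
        have h2 : (E : ℝ) * x ≤ y := by exact_mod_cast h1
        refine le_trans ?_ h2
        exact mul_le_mul_of_nonneg_right hE (by positivity)
      have hA := hK1 x y hx hy1
      have hC := pi_small N0 x y (ρ / 4) (by positivity) hx hyE
      set B : Set ℕ := {N | ∃ P : Polynomial ℝ, P.natDegree ≤ d ∧ NonMaj K2 N d P ∧
        ε1 * N < ‖SmP β δ N P‖} with hB
      have hst := hST J B x y hJ hx
      have hx' : 0 < max 1 (x / J) := by omega
      have hx'y : K2 * max 1 (x / J) ≤ y := by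
        refine le_trans (Nat.mul_le_mul_left _ ?_) hy2
        have : x / J ≤ x := Nat.div_le_self x J
        omega
      have hih := hK2 (max 1 (x / J)) y hx' hx'y
      have hlog := pi_log J x y hJ hx hyJ
      have hDD : ∑ N ∈ (Finset.Icc x y).filter (fun N : ℕ => ∃ i : ℕ, i ≤ J ∧ 0 < i * N / J ∧
          i * N / J ∈ B), (1 / (N : ℝ)) ≤ ρ / 4 * Real.log ((y : ℝ) / x) := by
        refine hst.trans ?_
        calc 2 * (J : ℝ) ^ 2 * ∑ N ∈ (Finset.Icc (max 1 (x / J)) y).filter (fun N : ℕ => N ∈ B),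
              (1 / (N : ℝ))
            ≤ 2 * (J : ℝ) ^ 2 * (ρ / (16 * (J : ℝ) ^ 2) *
                Real.log ((y : ℝ) / (max 1 (x / J) : ℕ))) := by
              apply mul_le_mul_of_nonneg_left _ (by positivity)
              exact hih
          _ ≤ 2 * (J : ℝ) ^ 2 * (ρ / (16 * (J : ℝ) ^ 2) * (2 * Real.log ((y : ℝ) / x))) := by
              apply mul_le_mul_of_nonneg_left _ (by positivity)
              apply mul_le_mul_of_nonneg_left hlog (by positivity)
          _ = ρ / 4 * Real.log ((y : ℝ) / x) := by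
              field_simp
              ring
      have hlog0 : 0 ≤ Real.log ((y : ℝ) / x) := by
        have hxR : (0 : ℝ) < x := by exact_mod_cast hx
        apply Real.log_nonneg
        rw [le_div_iff₀ hxR]
        have : (2 * J * x : ℝ) ≤ y := by exact_mod_cast hyJ
        have hJ1 : (1 : ℝ) ≤ J := by exact_mod_cast hJ
        nlinarith
      have hsplit := pi_split (Finset.Icc x y) (fun N => 1 / (N : ℝ)) (fun N => by positivity)
        (fun N : ℕ => ∃ P : Polynomial ℝ, P.natDegree ≤ d + 1 ∧ NonMaj K N (d + 1) P ∧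
          ε * N < ‖SmP β δ N P‖)
        (fun N : ℕ => ∃ P : Polynomial ℝ, P.natDegree ≤ d + 1 ∧
          MinorD K1 N (d + 1) (P.coeff (d + 1)) ∧ ε * N < ‖SmP β δ N P‖)
        (fun N : ℕ => N < N0)
        (fun N : ℕ => ∃ i : ℕ, i ≤ J ∧ 0 < i * N / J ∧ i * N / J ∈ B) (by
          rintro N hN ⟨P, hP1, hP2, hP3⟩
          by_cases hm : MinorD K1 N (d + 1) (P.coeff (d + 1))
          · left
            exact ⟨P, hP1, hm, hP3⟩
          · right
            rcases Nat.lt_or_ge N N0 with hlt | hge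
            · left
              exact hlt
            · right
              unfold MinorD at hm
              push Not at hm
              obtain ⟨q, hq1, hq2, a, ha⟩ := hm
              obtain ⟨i, k, hi, hk, hik⟩ := hbl (fun n => ((fm β δ n : ℝ) : ℂ)) N q a P
                (fun n => pi_fm_le β δ n) hge hq1 hq2 hP1 ha hP3
              have hik' : ε1 * N < ‖SmP β δ (i * N / J)
                (P.erase (d + 1) + Polynomial.C ((k : ℝ) / q) * Polynomial.X)‖ := hik
              have hN1 : ε1 * N < (i * N / J : ℕ) := lt_of_lt_of_le hik' (pi_SmP_le _ _ _ _)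
              have hN1pos : 0 < i * N / J := by
                have h0 : (0 : ℝ) ≤ ε1 * N := by positivity
                have : (0 : ℝ) < (i * N / J : ℕ) := lt_of_le_of_lt h0 hN1
                exact_mod_cast this
              refine ⟨i, hi, hN1pos, ?_⟩
              refine ⟨_, pi_degree d hd P hP1 _, pi_minor d K K1 K2 R N (i * N / J) q k ε1 a P
                hR1 hKR hR0 hN1 hq1 hq2 ha hP2, ?_⟩
              refine lt_of_le_of_lt ?_ hik'
              apply mul_le_mul_of_nonneg_left _ hε1.le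
              have : i * N / J ≤ N := by
                apply Nat.div_le_of_le_mul
                exact Nat.mul_le_mul_right N hi
              exact_mod_cast this)
      refine hsplit.trans ?_
      have h9 : ρ / 4 * Real.log ((y : ℝ) / x) + ρ / 4 * Real.log ((y : ℝ) / x) +
          ρ / 4 * Real.log ((y : ℝ) / x) ≤ ρ * Real.log ((y : ℝ) / x) := by
        nlinarith [mul_nonneg hρ.le hlog0]
      refine le_trans ?_ h9
      exact add_le_add (add_le_add hA hC) hDD

end Pool.Agent.H21.DPD
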