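import Pool.Agent.H31.DPD.Targets

/-!
Module UD of the project DPD on `MP_c59857_nt`: the inequality of Weyl and van der Corput for a
polynomial phase.
-/

set_option autoImplicit false

open Finset

namespace Pool.Agent.H21.DPD

open Pool.Agent.H24.T2 (Pset box cub)
open Pool.Agent.H31.DP Pool.Agent.H31.DPD

theorem ud_ee_add (x y : ℝ) : ee (x + y) = ee x * ee y := by
  unfold ee
  rw [← Complex.exp_add]
  congr 1
  push_cast
  ring

theorem ud_ee_zero : ee 0 = 1 := by simp [ee]

theorem ud_conj_ee (x : ℝ) : (starRingEnd ℂ) (ee x) = ee (-x) := by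
  unfold ee
  rw [← Complex.exp_conj]
  congr 1
  simp only [map_mul, Complex.conj_ofReal, Complex.conj_I, map_ofNat, Complex.ofReal_neg]
  ring

theorem ud_ee_sum {ι : Type*} (s : Finset ι) (f : ι → ℝ) :
    ∏ i ∈ s, ee (f i) = ee (∑ i ∈ s, f i) := by
  classical
  induction s using Finset.induction_on with
  | empty => simp [ud_ee_zero]
  | insert a s ha ih => rw [Finset.prod_insert ha, Finset.sum_insert ha, ud_ee_add, ih]

/-- the subsets of `Fin (n + 1)` with and without `0` -/
theorem ud_prod_succ {M : Type*} [CommMonoid M] (n : ℕ) (f : Finset (Fin (n + 1)) → M) :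
    ∏ I, f I = (∏ I : Finset (Fin n), f (I.map (Fin.succEmb n))) *
      ∏ I : Finset (Fin n), f (insert 0 (I.map (Fin.succEmb n))) := by
  classical
  have h0 : (0 : Fin (n + 1)) ∉ (Finset.univ : Finset (Fin n)).map (Fin.succEmb n) := by
    simp
  have h1 : ∀ g : Finset (Fin (n + 1)) → M,
      ∏ t ∈ ((Finset.univ : Finset (Fin n)).map (Fin.succEmb n)).powerset, g t =
        ∏ I : Finset (Fin n), g (I.map (Fin.succEmb n)) := by
    intro g
    symm
    apply Finset.prod_bij (fun I _ => I.map (Fin.succEmb n))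
    · intro I _
      rw [Finset.mem_powerset]
      exact Finset.map_subset_map.2 (Finset.subset_univ _)
    · intro I _ J _ h
      exact Finset.map_injective _ h
    · intro t ht
      rw [Finset.mem_powerset, Finset.subset_map_iff] at ht
      obtain ⟨I, _, rfl⟩ := ht
      exact ⟨I, Finset.mem_univ _, rfl⟩
    · intro I _
      rfl
  have h2 : (Finset.univ : Finset (Finset (Fin (n + 1)))) =
      (insert 0 ((Finset.univ : Finset (Fin n)).map (Fin.succEmb n))).powerset := by
    rw [← Finset.powerset_univ, Fin.univ_succ, Finset.cons_eq_insert]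
    rfl
  rw [h2, Finset.prod_powerset_insert h0, h1, h1]

/-- the subsets of `Fin (n + 1)` with and without `0` -/
theorem ud_sum_succ {M : Type*} [AddCommMonoid M] (n : ℕ) (f : Finset (Fin (n + 1)) → M) :
    ∑ I, f I = (∑ I : Finset (Fin n), f (I.map (Fin.succEmb n))) +
      ∑ I : Finset (Fin n), f (insert 0 (I.map (Fin.succEmb n))) := by
  classical
  have h0 : (0 : Fin (n + 1)) ∉ (Finset.univ : Finset (Fin n)).map (Fin.succEmb n) := by
    simp
  have h1 : ∀ g : Finset (Fin (n + 1)) → M,
      ∑ t ∈ ((Finset.univ : Finset (Fin n)).map (Fin.succEmb n)).powerset, g t =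
        ∑ I : Finset (Fin n), g (I.map (Fin.succEmb n)) := by
    intro g
    symm
    apply Finset.sum_bij (fun I _ => I.map (Fin.succEmb n))
    · intro I _
      rw [Finset.mem_powerset]
      exact Finset.map_subset_map.2 (Finset.subset_univ _)
    · intro I _ J _ h
      exact Finset.map_injective _ h
    · intro t ht
      rw [Finset.mem_powerset, Finset.subset_map_iff] at ht
      obtain ⟨I, _, rfl⟩ := ht
      exact ⟨I, Finset.mem_univ _, rfl⟩
    · intro I _
      rfl
  have h2 : (Finset.univ : Finset (Finset (Fin (n + 1)))) =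
      (insert 0 ((Finset.univ : Finset (Fin n)).map (Fin.succEmb n))).powerset := by
    rw [← Finset.powerset_univ, Fin.univ_succ, Finset.cons_eq_insert]
    rfl
  rw [h2, Finset.sum_powerset_insert h0, h1, h1]

theorem ud_zero_notMem {n : ℕ} (I : Finset (Fin n)) : (0 : Fin (n + 1)) ∉ I.map (Fin.succEmb n) := by
  simp

theorem ud_sI_map {n : ℕ} (t : Fin (n + 1) → ℤ) (I : Finset (Fin n)) :
    sI t (I.map (Fin.succEmb n)) = sI (Fin.tail t) I := by
  unfold sI
  rw [Finset.sum_map]
  rfl

theorem ud_sI_ins {n : ℕ} (t : Fin (n + 1) → ℤ) (I : Finset (Fin n)) :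
    sI t (insert 0 (I.map (Fin.succEmb n))) = t 0 + sI (Fin.tail t) I := by
  rw [← ud_sI_map]
  unfold sI
  rw [Finset.sum_insert (ud_zero_notMem I)]

theorem ud_card_ins {n : ℕ} (I : Finset (Fin n)) :
    (insert 0 (I.map (Fin.succEmb n))).card = I.card + 1 := by
  rw [Finset.card_insert_of_notMem (ud_zero_notMem I), Finset.card_map]

/-- the step for the products over the cubes -/
theorem ud_AC_succ {n : ℕ} (a : ℤ → ℂ) (t : Fin (n + 1) → ℤ) (y : ℤ) :
    AC a t y = AC (fun p => a p * (starRingEnd ℂ) (a (p + t 0))) (Fin.tail t) y := by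
  unfold AC
  rw [ud_prod_succ, ← Finset.prod_mul_distrib]
  refine Finset.prod_congr rfl fun I _ => ?_
  rw [ud_card_ins, ud_sI_ins, ud_sI_map, Finset.card_map]
  have e : y + (t 0 + sI (Fin.tail t) I) = y + sI (Fin.tail t) I + t 0 := by ring
  rw [e]
  by_cases h : Even I.card
  · simp [h, Nat.even_add_one]
  · simp [h, Nat.even_add_one]

theorem ud_forall_succ {n : ℕ} (Q : Finset (Fin (n + 1)) → Prop) :
    (∀ I, Q I) ↔ ∀ I : Finset (Fin n), Q (I.map (Fin.succEmb n)) ∧
      Q (insert 0 (I.map (Fin.succEmb n))) := by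
  classical
  constructor
  · intro h I
    exact ⟨h _, h _⟩
  · intro h I
    by_cases h0 : (0 : Fin (n + 1)) ∈ I
    · have : I = insert 0 ((Finset.univ.filter (fun j : Fin n => j.succ ∈ I)).map
          (Fin.succEmb n)) := by
        ext i
        refine Fin.cases ?_ (fun i => ?_) i
        · simp [h0]
        · simp
      rw [this]
      exact (h _).2
    · have : I = ((Finset.univ.filter (fun j : Fin n => j.succ ∈ I)).map
          (Fin.succEmb n)) := by
        ext i
        refine Fin.cases ?_ (fun i => ?_) i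
        · simp [h0]
        · simp
      rw [this]
      exact (h _).1

/-- the expansion over the cubes -/
theorem ud_expand (X : ℕ) : ∀ (n : ℕ) (A : Finset ℤ) (c : ℤ → ℂ),
    Uc X n A c = ∑ t ∈ box n X,
      ∑ p ∈ A.filter (fun p => ∀ I : Finset (Fin n), p + sI t I ∈ A), AC c t p := by
  classical
  intro n
  induction n with
  | zero =>
    intro A c
    unfold Uc
    have hb : box 0 X = {fun i => i.elim0} := by
      ext t
      simp only [Pool.Agent.H24.T2.mem_box, Finset.mem_singleton]
      constructor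
      · intro _
        funext i
        exact i.elim0
      · intro _ i
        exact i.elim0
    rw [hb, Finset.sum_singleton]
    have hs : ∀ I : Finset (Fin 0), sI (fun i : Fin 0 => (i.elim0 : ℤ)) I = 0 := by
      intro I
      unfold sI
      apply Finset.sum_eq_zero
      intro i _
      exact i.elim0
    refine Finset.sum_congr ?_ ?_
    · ext p
      simp [hs]
    · intro p _
      unfold AC
      have hu : (Finset.univ : Finset (Finset (Fin 0))) = {∅} := by
        rfl
      rw [hu, Finset.prod_singleton, hs]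
      simp
  | succ n ih =>
    intro A c
    rw [Pool.Agent.H24.T2.sum_box_succ]
    unfold Uc
    refine Finset.sum_congr rfl fun t0 _ => ?_
    rw [ih]
    refine Finset.sum_congr rfl fun t _ => ?_
    refine Finset.sum_congr ?_ ?_
    · ext p
      simp only [Finset.mem_filter]
      rw [ud_forall_succ (fun I => p + sI (Fin.cons t0 t) I ∈ A)]
      simp only [ud_sI_map, ud_sI_ins, Fin.cons_zero, Fin.tail_cons]
      constructor
      · rintro ⟨⟨h1, h2⟩, h3⟩
        refine ⟨h1, fun I => ⟨(h3 I).1, ?_⟩⟩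
        have := (h3 I).2
        have e : p + (t0 + sI t I) = p + sI t I + t0 := by ring
        rw [e]
        exact this
      · rintro ⟨h1, h2⟩
        refine ⟨⟨h1, ?_⟩, fun I => ⟨(h2 I).1, ?_⟩⟩
        · have := (h2 ∅).2
          simpa [sI] using this
        · have := (h2 I).2
          have e : p + (t0 + sI t I) = p + sI t I + t0 := by ring
          rw [e] at this
          exact this
    · intro p _
      rw [ud_AC_succ, Fin.cons_zero, Fin.tail_cons]

/-- the difference of a polynomial -/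
theorem ud_diff (d : ℕ) (P : Polynomial ℝ) (hP : P.natDegree ≤ d + 1) (a : ℝ) :
    (P - Polynomial.taylor a P).natDegree ≤ d ∧
      (P - Polynomial.taylor a P).coeff d = -((d : ℝ) + 1) * a * P.coeff (d + 1) := by
  constructor
  · rw [Polynomial.natDegree_le_iff_coeff_eq_zero]
    intro N hN
    rw [Polynomial.coeff_sub, Polynomial.taylor_coeff]
    have h1 : (Polynomial.hasseDeriv N P).natDegree ≤ 0 := by
      refine (Polynomial.natDegree_hasseDeriv_le P N).trans ?_
      omega
    rw [Polynomial.eval_eq_sum_range' (n := 1) (by omega)]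
    simp only [Finset.sum_range_one, pow_zero, mul_one, Polynomial.hasseDeriv_coeff, zero_add,
      Nat.choose_self, Nat.cast_one, one_mul, sub_self]
  · rw [Polynomial.coeff_sub, Polynomial.taylor_coeff]
    have h1 : (Polynomial.hasseDeriv d P).natDegree < 2 := by
      refine lt_of_le_of_lt (Polynomial.natDegree_hasseDeriv_le P d) ?_
      omega
    rw [Polynomial.eval_eq_sum_range' h1, Finset.sum_range_succ, Finset.sum_range_one]
    simp only [pow_zero, mul_one, Polynomial.hasseDeriv_coeff, zero_add,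
      Nat.choose_self, Nat.cast_one, one_mul, pow_one]
    rw [add_comm 1 d, Nat.choose_succ_self_right]
    push_cast
    ring

theorem ud_alt : ∀ (d : ℕ) (P : Polynomial ℝ), P.natDegree ≤ d → ∀ (t : Fin d → ℤ) (y : ℝ),
    ∑ I : Finset (Fin d), (-1 : ℝ) ^ I.card * P.eval (y + (sI t I : ℝ)) =
      (-1) ^ d * d.factorial * P.coeff d * ((∏ i, t i : ℤ) : ℝ) := by
  intro d
  induction d with
  | zero =>
    intro P hP t y
    have hu : (Finset.univ : Finset (Finset (Fin 0))) = {∅} := rfl
    rw [hu, Finset.sum_singleton]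
    have h1 : P = Polynomial.C (P.coeff 0) := Polynomial.eq_C_of_natDegree_le_zero hP
    rw [h1]
    simp
  | succ d ih =>
    intro P hP t y
    rw [ud_sum_succ, ← Finset.sum_add_distrib]
    obtain ⟨h1, h2⟩ := ud_diff d P hP (t 0 : ℝ)
    have h3 := ih (P - Polynomial.taylor (t 0 : ℝ) P) h1 (Fin.tail t) y
    rw [h2] at h3
    calc ∑ I : Finset (Fin d), ((-1 : ℝ) ^ (I.map (Fin.succEmb d)).card *
            P.eval (y + (sI t (I.map (Fin.succEmb d)) : ℝ)) +
            (-1 : ℝ) ^ (insert 0 (I.map (Fin.succEmb d))).card *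
              P.eval (y + (sI t (insert 0 (I.map (Fin.succEmb d))) : ℝ)))
        = ∑ I : Finset (Fin d), (-1 : ℝ) ^ I.card *
            (P - Polynomial.taylor (t 0 : ℝ) P).eval (y + (sI (Fin.tail t) I : ℝ)) := by
          refine Finset.sum_congr rfl fun I _ => ?_
          rw [ud_card_ins, ud_sI_ins, ud_sI_map, Finset.card_map, Polynomial.eval_sub,
            Polynomial.taylor_eval, pow_succ]
          push_cast
          have e : y + ((t 0 : ℝ) + (sI (Fin.tail t) I : ℝ)) =
            y + (sI (Fin.tail t) I : ℝ) + (t 0 : ℝ) := by ring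
          rw [e]
          ring
      _ = _ := h3
      _ = _ := by
          rw [Fin.prod_univ_succ, Nat.factorial_succ, pow_succ]
          push_cast
          unfold Fin.tail
          ring

theorem ud_AC_eq {l d : ℕ} (h : Fin l → ℕ) (P : Polynomial ℝ) (t : Fin d → ℤ) (y : ℤ) :
    AC (fun n : ℤ => ((FF h 1 n : ℝ) : ℂ) * ee (P.eval (n : ℝ))) t y =
      ((GC h 1 t y : ℝ) : ℂ) *
        ee (∑ I : Finset (Fin d), (-1 : ℝ) ^ I.card * P.eval ((y : ℝ) + (sI t I : ℝ))) := by
  unfold AC GC
  rw [← ud_ee_sum, Complex.ofReal_prod, ← Finset.prod_mul_distrib]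
  refine Finset.prod_congr rfl fun I _ => ?_
  push_cast
  by_cases hI : Even I.card
  · rw [if_pos hI, hI.neg_one_pow, one_mul]
  · rw [if_neg hI, (Nat.not_even_iff_odd.1 hI).neg_one_pow, map_mul, ud_conj_ee,
      Complex.conj_ofReal]
    congr 2
    ring

theorem ud_re_neg (x r : ℝ) : (ee (-x) * (r : ℂ)).re = (ee x * (r : ℂ)).re := by
  rw [← ud_conj_ee, ← Complex.conj_ofReal, ← map_mul, Complex.conj_re, Complex.conj_ofReal]

theorem ud_filter {d : ℕ} (N : ℕ) (t : Fin d → ℤ) :
    (Finset.Icc (1 : ℤ) N).filter (fun p => ∀ I : Finset (Fin d), p + sI t I ∈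
      Finset.Icc (1 : ℤ) N) = IC N t := by
  unfold IC
  simp only [Finset.mem_Icc]

theorem ud_main (d l : ℕ) (h : Fin l → ℕ) (N : ℕ) (P : Polynomial ℝ) (hP : P.natDegree ≤ d) :
    (Uc N d (Finset.Icc (1 : ℤ) N)
      (fun n : ℤ => ((FF h 1 n : ℝ) : ℂ) * ee (P.eval (n : ℝ)))).re =
      (RCc d h 1 1 N (P.coeff d)).re := by
  classical
  rw [ud_expand]
  unfold RCc
  rw [Complex.re_sum, Complex.re_sum]
  have hb : box d N = mulc d 1 N := by
    unfold Pool.Agent.H24.T2.box mulc mul
    simp
  rw [hb]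
  refine Finset.sum_congr rfl fun t _ => ?_
  rw [ud_filter]
  have h1 : ∑ p ∈ IC N t, AC (fun n : ℤ => ((FF h 1 n : ℝ) : ℂ) * ee (P.eval (n : ℝ))) t p =
      ee ((-1) ^ d * ((d.factorial : ℝ) * (P.coeff d / ((1 : ℕ) : ℝ) ^ d) *
        ((∏ i, t i : ℤ) : ℝ))) * ((CAc h 1 N t : ℝ) : ℂ) := by
    unfold CAc
    rw [Complex.ofReal_sum, Finset.mul_sum]
    refine Finset.sum_congr rfl fun y _ => ?_
    rw [ud_AC_eq, ud_alt d P hP, mul_comm]
    congr 2
    simp only [Nat.cast_one, one_pow, div_one]
    ring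
  rw [h1]
  rcases Nat.even_or_odd d with hd | hd
  · rw [hd.neg_one_pow, one_mul]
  · rw [hd.neg_one_pow, neg_one_mul, ud_re_neg]

theorem ud_SgP {l : ℕ} (h : Fin l → ℕ) (N : ℕ) (P : Polynomial ℝ) :
    SgP h N P = ∑ p ∈ Finset.Icc (1 : ℤ) N, ((FF h 1 p : ℝ) : ℂ) * ee (P.eval (p : ℝ)) := by
  unfold SgP
  apply Finset.sum_bij (fun (n : ℕ) _ => (n : ℤ))
  · intro n hn
    rw [Finset.mem_Icc] at hn ⊢
    omega
  · intro a _ b _ hab
    exact_mod_cast hab
  · intro b hb
    rw [Finset.mem_Icc] at hb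
    refine ⟨b.toNat, ?_, ?_⟩
    · rw [Finset.mem_Icc]
      omega
    · omega
  · intro n _
    push_cast
    rfl

theorem pf_UD (hGV : StatementGV) : P_UD := by
  intro d l h N P hd hP
  obtain ⟨n, rfl⟩ : ∃ n, d = n + 1 := ⟨d - 1, by omega⟩
  have key := hGV Unit n 1 N Finset.univ (fun _ _ => 1) (fun _ => 0) (Finset.Icc (1 : ℤ) N)
    (fun n : ℤ => ((FF h 1 n : ℝ) : ℂ) * ee (P.eval (n : ℝ))) (by simp) (by simp)
    (by simp) (by
      intro p hp q hq
      rw [Finset.mem_Icc] at hp hq
      rw [abs_le]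
      omega)
  rw [ud_main (n + 1) l h N P hP] at key
  have e1 : ∑ p ∈ Finset.Icc (1 : ℤ) N, (((FF h 1 p : ℝ) : ℂ) * ee (P.eval (p : ℝ))) *
      ∑ y : Unit, ∏ i : Fin (n + 1), (1 : ℂ) = SgP h N P := by
    rw [ud_SgP]
    simp
  rw [e1] at key
  simpa using key

end Pool.Agent.H21.DPD
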